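import Pool.Agent.H967.GGC.Main

set_option autoImplicit false

/-!
# Which McKay-type Bessel laws are generalised gamma convolutions (MP_ede858_pr, Q2, GGC part)

Definitions (all in `Pool.Agent.H967.GGC.Basic`):
* `besselI μ x = ∑_k (x/2)^(2k+μ) / (k! Γ(k+μ+1))`;
* `phi μ ν a b x = x^(ν-1) e^(-bx) I_μ(ax)` and `xi μ a b x = x^(2μ) e^(-bx) I_μ(ax)^2`;
* `IsLawOf f P`: `P` is the probability measure on `(0,∞)` with density `C f`, `C > 0`;
* `IsGGC P`: the Laplace transform of `P` is `exp (-a s + ∫ log (t/(s+t)) dU(t))`, `s ≥ 0`, with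
  `a ≥ 0` and a nonnegative measure `U` on `(0,∞)` (integrals convergent).

Idea: with `p = b + s` the Laplace transforms are `M p^(-2β) ₂F₁(α,β;γ;c²/p²)`.  Gauss' continued
fraction for `₂F₁(α,β+1;γ)/₂F₁(α,β;γ)` has the partial numerators `k₁ = g₁, k_j = (1-g_{j-1}) g_j`.
If `α, β ≤ γ` all `g_j` lie in `[0,1]` (a chain sequence), so the logarithmic derivative is the
Stieltjes transform of a positive measure on `[b-c,b+c]` (spectral theorem for Jacobi matrices and
compactness); otherwise `k₂ < 0` or `k₃ < 0`, which contradicts the Cauchy-Schwarz inequality for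
the moments of the Thorin measure.
-/

namespace Pool.Agent.Results.MP_ede858_pr.GGCClassification
open MeasureTheory Filter Topology Set Pool.Agent.H967.GGC

/-- **Q2 of MP_ede858_pr, GGC part.**  In the whole parameter domain the law with density
`φ_{μ,ν,a,b}` is a generalised gamma convolution if and only if `ν ≤ μ + 1`, and the law with
density `ξ_{μ,a,b}` is one if and only if `μ ≤ 1/2`. -/
theorem result :
    (∀ μ ν a b : ℝ, -1 < μ → 0 < μ + ν → 0 < a → a < b →
      (∃ P : Measure ℝ, IsLawOf (phi μ ν a b) P) ∧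
      ∀ P : Measure ℝ, IsLawOf (phi μ ν a b) P → (IsGGC P ↔ ν ≤ μ + 1)) ∧
    (∀ μ a b : ℝ, -1 / 4 < μ → 0 < a → 2 * a < b →
      (∃ P : Measure ℝ, IsLawOf (xi μ a b) P) ∧
      ∀ P : Measure ℝ, IsLawOf (xi μ a b) P → (IsGGC P ↔ μ ≤ 1 / 2)) :=
  ⟨fun _ _ _ _ hμ hμν ha hab => main_phi hμ hμν ha hab,
    fun _ _ _ hμ ha hab => main_xi hμ ha hab⟩

end Pool.Agent.Results.MP_ede858_pr.GGCClassification
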