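import Pool.Agent.H967.GGC.Main6

set_option autoImplicit false

/-!
# Self-decomposability of the McKay-type Bessel laws (MP_ede858_pr, Q2, SD part)

Definitions (in `Pool.Agent.H967.GGC.Basic`, `Basic2` and `Main4`):
* `besselI μ x = ∑_k (x/2)^(2k+μ) / (k! Γ(k+μ+1))`;
* `phi μ ν a b x = x^(ν-1) e^(-bx) I_μ(ax)` and `xi μ a b x = x^(2μ) e^(-bx) I_μ(ax)^2`;
* `IsLawOf f P`: `P` is the probability measure on `(0,∞)` with density `C f`, `C > 0`;
* `IsSD P`: for every `κ ∈ (0,1)` there is a probability measure `Q` with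
  `P = (law of κX, X ∼ P) ∗ Q`;
* `kap α β γ n`: the Taylor coefficients of `2β ₂F₁(α,β+1;γ;z)/₂F₁(α,β;γ;z)`;
* `KK α β γ x = ∑ kap_n x^(2n)/(2n)!`, an entire function;
* `crit α β γ = sup_{x>0} K'(x)/K(x)`, `K = KK α β γ`.

With `p = b + s` the Laplace transforms are `M p^(-2β) ₂F₁(α,β;γ;c²/p²)`, and
`k(x) = e^(-bx) KK(cx)` is the canonical function (`-L'/L(s) = ∫ e^(-sx) k(x) dx`); the law is
self-decomposable iff `k` is nonincreasing.
-/

namespace Pool.Agent.Results.MP_ede858_pr.SelfDecomposability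
open MeasureTheory Filter Topology Set Pool.Agent.H967.GGC

/-- **Q2 of MP_ede858_pr, SD part, all parameters.**  First family: for `ν ≤ μ + 1` the law is
self-decomposable for all `b > a`; for `ν > μ + 1` it is so iff `b ≥ t a`, where
`t = crit ((μ+ν+1)/2) ((μ+ν)/2) (μ+1)` is finite and `> 1`; for `ν = μ + 2` this number is
`(2μ+3)/√((2μ+3)² - 1)`.
Second family: for `μ ≤ 1/2` the law is self-decomposable for all `b > 2a`; for `μ > 1/2` it is so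
iff `b ≥ t (2a)`, where `t = crit (μ+1/2) (2μ+1/2) (μ+1)` is finite and `> 1`. -/
theorem result :
    (∀ μ ν a b : ℝ, -1 < μ → 0 < μ + ν → 0 < a → a < b →
      (∃ P : Measure ℝ, IsLawOf (phi μ ν a b) P) ∧
      ∀ P : Measure ℝ, IsLawOf (phi μ ν a b) P →
        (IsSD P ↔ ν ≤ μ + 1 ∨ crit ((μ + ν + 1) / 2) ((μ + ν) / 2) (μ + 1) * a ≤ b)) ∧
    (∀ μ ν : ℝ, -1 < μ → 0 < μ + ν → μ + 1 < ν →
      1 < crit ((μ + ν + 1) / 2) ((μ + ν) / 2) (μ + 1)) ∧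
    (∀ μ : ℝ, -1 < μ →
      crit (μ + 3 / 2) (μ + 1) (μ + 1) = (2 * μ + 3) / Real.sqrt ((2 * μ + 3) ^ 2 - 1)) ∧
    (∀ μ a b : ℝ, -1 / 4 < μ → 0 < a → 2 * a < b →
      (∃ P : Measure ℝ, IsLawOf (xi μ a b) P) ∧
      ∀ P : Measure ℝ, IsLawOf (xi μ a b) P →
        (IsSD P ↔ μ ≤ 1 / 2 ∨ crit (μ + 1 / 2) (2 * μ + 1 / 2) (μ + 1) * (2 * a) ≤ b)) ∧
    (∀ μ : ℝ, 1 / 2 < μ → 1 < crit (μ + 1 / 2) (2 * μ + 1 / 2) (μ + 1)) := by
  refine ⟨fun μ ν a b hμ hμν ha hab => ?_, fun μ ν hμ hμν h => (sd_phi_threshold hμ hμν h).1,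
    fun μ hμ => crit_two hμ, fun μ a b hμ ha hab => ?_, fun μ h => (sd_xi_threshold_all h).1⟩
  · refine ⟨(main_phi hμ hμν ha hab).1, fun P hP => ?_⟩
    rcases le_or_gt ν (μ + 1) with h | h
    · exact ⟨fun _ => Or.inl h, fun _ => (main_sd_phi hμ hμν ha hab P hP).1 h⟩
    · rw [(sd_phi_threshold hμ hμν h).2 a b ha hab P hP]
      exact ⟨Or.inr, fun h' => h'.resolve_left (not_le.2 h)⟩
  · refine ⟨(main_xi hμ ha hab).1, fun P hP => ?_⟩
    rcases le_or_gt μ (1 / 2) with h | h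
    · exact ⟨fun _ => Or.inl h, fun _ => main_sd_xi hμ ha hab P hP h⟩
    · rw [(sd_xi_threshold_all h).2 a b ha hab P hP]
      exact ⟨Or.inr, fun h' => h'.resolve_left (not_le.2 h)⟩

end Pool.Agent.Results.MP_ede858_pr.SelfDecomposability
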